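import Pool.Agent.helper71.FT.Spec

/-!
# MP_07c750, project FT, row FUQ (helper23)

The union.
-/

open MeasureTheory Filter Set

set_option autoImplicit false

namespace Pool.Agent.FT

open Pool.Agent.FS (tp)

noncomputable section

theorem FUQ_tp_cont (S : Finset ℤ) (a : ℤ → ℂ) : Continuous (fun v : ℝ => tp S a v) := by
  unfold Pool.Agent.FS.tp Pool.Agent.FS.ee
  fun_prop

theorem FUQ_closure (c e : ℝ) (n : ℕ) (Y : Set ℝ) (h : PQ c e n Y) : PQ c e n (closure Y) := by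
  obtain ⟨B, hB, hB2⟩ := h
  refine ⟨B, hB, fun k hk hkB r hr hr2 v => ?_⟩
  obtain ⟨x, hx, hx2⟩ := hB2 k hk hkB r hr hr2 v
  exact ⟨x, hx, hx2.closure_right isOpen_Ioo⟩

theorem FUQ_union (U : Set ℝ) (YY : Finset (Set ℝ)) (hU : U ⊆ ⋃ Y ∈ YY, Y) (F : ℝ → ℝ) (hF : Continuous F) (h0 : ∀ v, 0 ≤ F v) :
    ∫ v in U ∩ Icc 0 1, F v ≤ ∑ Y ∈ YY, ∫ v in closure Y ∩ Icc 0 1, F v := by
  have hm : ∀ Y : Set ℝ, MeasurableSet (closure Y ∩ Icc (0 : ℝ) 1) := fun Y => isClosed_closure.measurableSet.inter measurableSet_Icc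
  have hi : ∀ Y : Set ℝ, IntegrableOn F (closure Y ∩ Icc (0 : ℝ) 1) := fun Y => (hF.integrableOn_Icc (a := 0) (b := 1)).mono_set inter_subset_right
  obtain ⟨W, hW⟩ : ∃ W : Set ℝ, W = ⋃ Y ∈ YY, (closure Y ∩ Icc (0 : ℝ) 1) := ⟨_, rfl⟩
  have hWm : MeasurableSet W := by
    rw [hW]
    exact Finset.measurableSet_biUnion _ fun Y _ => hm Y
  have hWI : W ⊆ Icc 0 1 := by
    rw [hW]
    intro v hv
    obtain ⟨Y, -, hv2⟩ := mem_iUnion₂.1 hv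
    exact hv2.2
  have hUW : U ∩ Icc 0 1 ⊆ W := by
    rintro v ⟨hv, hv2⟩
    obtain ⟨Y, hY, hv3⟩ := mem_iUnion₂.1 (hU hv)
    rw [hW]
    exact mem_iUnion₂.2 ⟨Y, hY, subset_closure hv3, hv2⟩
  have hiW : IntegrableOn F W := (hF.integrableOn_Icc (a := 0) (b := 1)).mono_set hWI
  have h1 : ∫ v in U ∩ Icc 0 1, F v ≤ ∫ v in W, F v :=
    integral_mono_measure (Measure.restrict_mono_set volume hUW) (Filter.Eventually.of_forall h0) hiW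
  refine h1.trans ?_
  rw [← integral_indicator hWm]
  have h2 : ∑ Y ∈ YY, ∫ v in closure Y ∩ Icc 0 1, F v = ∫ v, ∑ Y ∈ YY, indicator (closure Y ∩ Icc (0 : ℝ) 1) F v := by
    rw [integral_finsetSum]
    · exact Finset.sum_congr rfl fun Y _ => (integral_indicator (hm Y)).symm
    · intro Y _
      exact (integrable_indicator_iff (hm Y)).2 (hi Y)
  rw [h2]
  refine integral_mono ((integrable_indicator_iff hWm).2 hiW) (integrable_finsetSum _ fun Y _ => (integrable_indicator_iff (hm Y)).2 (hi Y)) fun v => ?_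
  have hnn : ∀ Y : Set ℝ, 0 ≤ indicator (closure Y ∩ Icc (0 : ℝ) 1) F v := fun Y => indicator_nonneg (fun w _ => h0 w) v
  by_cases hv : v ∈ W
  · have hv' := hv
    rw [hW] at hv'
    obtain ⟨Y, hY, hv2⟩ := mem_iUnion₂.1 hv'
    have h3 : indicator (closure Y ∩ Icc (0 : ℝ) 1) F v = F v := indicator_of_mem hv2 F
    have h4 := Finset.single_le_sum (f := fun Y : Set ℝ => indicator (closure Y ∩ Icc (0 : ℝ) 1) F v) (fun Y _ => hnn Y) hY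
    show indicator W F v ≤ ∑ Y ∈ YY, indicator (closure Y ∩ Icc (0 : ℝ) 1) F v
    rw [indicator_of_mem hv]
    exact h3.symm.le.trans h4
  · show indicator W F v ≤ ∑ Y ∈ YY, indicator (closure Y ∩ Icc (0 : ℝ) 1) F v
    rw [indicator_of_notMem hv]
    exact Finset.sum_nonneg fun Y _ => hnn Y

theorem FUQ_proof (hFUS : FUS_stmt) : FUQ_stmt := by
  classical
  intro c hc hc1
  obtain ⟨ε, hε, hF⟩ := hFUS c hc hc1
  refine ⟨ε, hε, ?_⟩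
  intro κ0 Q hκ hκ1 hQ
  obtain ⟨n0, hn0⟩ := hF κ0 hκ hκ1
  obtain ⟨n1, hn1⟩ : ∃ n1 : ℕ, ∀ n : ℕ, n1 ≤ n → 4 * Real.exp (-(2 * ε * n)) ≤ Q := by
    have h1 : Tendsto (fun n : ℕ => 4 * Real.exp (-(2 * ε * n))) atTop (nhds (4 * 0)) := by
      refine Tendsto.const_mul 4 (Real.tendsto_exp_neg_atTop_nhds_zero.comp ?_)
      exact tendsto_natCast_atTop_atTop.const_mul_atTop (by positivity)
    rw [mul_zero] at h1
    exact eventually_atTop.1 ((h1.eventually (gt_mem_nhds hQ)).mono fun n h => h.le)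
  refine ⟨max n0 n1, ?_⟩
  intro n U Z J a εc hn hεc hU hZ hJ
  obtain ⟨YY, hYc, hYU, hYP⟩ := hU
  obtain ⟨ZZ, hZc, hZU, hZP⟩ := hZ
  have hn0' := (le_max_left _ _).trans hn
  have hn1' := hn1 n ((le_max_right _ _).trans hn)
  -- choice of the piece for each frequency
  have hch : ∀ j : ℤ, ∃ Z' : Set ℝ, j ∈ J → Z' ∈ ZZ ∧ ∃ z ∈ Z', |z - j * εc| ≤ 5 * εc := by
    intro j
    by_cases hj : j ∈ J
    · obtain ⟨z, hz, hz2⟩ := hJ j hj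
      obtain ⟨Z', hZ', hz3⟩ := mem_iUnion₂.1 (hZU hz)
      exact ⟨Z', fun _ => ⟨hZ', z, hz3, hz2⟩⟩
    · exact ⟨∅, fun h => absurd h hj⟩
  choose Zf hZf using hch
  have hmaps : ∀ j ∈ J, Zf j ∈ ZZ := fun j hj => (hZf j hj).1
  have hsum : ∀ v : ℝ, tp J a v = ∑ Z' ∈ ZZ, tp (J.filter fun j => Zf j = Z') a v := by
    intro v
    unfold Pool.Agent.FS.tp
    exact (Finset.sum_fiberwise_of_maps_to hmaps _).symm
  have hsumn : ∑ Z' ∈ ZZ, ∑ j ∈ J.filter (fun j => Zf j = Z'), ‖a j‖ ^ 2 = ∑ j ∈ J, ‖a j‖ ^ 2 :=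
    Finset.sum_fiberwise_of_maps_to hmaps _
  have hpt : ∀ v : ℝ, ‖tp J a v‖ ^ 2 ≤ (ZZ.card : ℝ) * ∑ Z' ∈ ZZ, ‖tp (J.filter fun j => Zf j = Z') a v‖ ^ 2 := by
    intro v
    rw [hsum v]
    calc ‖∑ Z' ∈ ZZ, tp (J.filter fun j => Zf j = Z') a v‖ ^ 2 ≤ (∑ Z' ∈ ZZ, ‖tp (J.filter fun j => Zf j = Z') a v‖) ^ 2 :=
          pow_le_pow_left₀ (norm_nonneg _) (norm_sum_le _ _) 2
      _ ≤ _ := sq_sum_le_card_mul_sum_sq
  have hone : ∀ Y ∈ YY, ∀ Z' ∈ ZZ, ∫ v in closure Y ∩ Icc 0 1, ‖tp (J.filter fun j => Zf j = Z') a v‖ ^ 2 ≤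
      4 * Real.exp (-(4 * ε * n)) * ∑ j ∈ J.filter (fun j => Zf j = Z'), ‖a j‖ ^ 2 := by
    intro Y hY Z' hZ'
    refine hn0 n (closure Y) Z' _ a εc hn0' hεc isClosed_closure.measurableSet (FUQ_closure c ε n Y (hYP Y hY)) (hZP Z' hZ') ?_
    intro j hj
    obtain ⟨hj1, hj2⟩ := Finset.mem_filter.1 hj
    have h1 := (hZf j hj1).2
    rw [hj2] at h1
    exact h1
  have hcont : ∀ Z' : Set ℝ, Continuous (fun v : ℝ => ‖tp (J.filter fun j => Zf j = Z') a v‖ ^ 2) := fun Z' => (FUQ_tp_cont _ a).norm.pow 2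
  have hFc : Continuous (fun v : ℝ => (ZZ.card : ℝ) * ∑ Z' ∈ ZZ, ‖tp (J.filter fun j => Zf j = Z') a v‖ ^ 2) :=
    continuous_const.mul (continuous_finset_sum _ fun Z' _ => hcont Z')
  have h0 : ∫ v in U ∩ Icc 0 1, ‖tp J a v‖ ^ 2 ≤ ∑ Y ∈ YY, ∫ v in closure Y ∩ Icc 0 1, ‖tp J a v‖ ^ 2 :=
    FUQ_union U YY hYU _ ((FUQ_tp_cont J a).norm.pow 2) (fun v => by positivity)
  have hY : ∀ Y ∈ YY, ∫ v in closure Y ∩ Icc 0 1, ‖tp J a v‖ ^ 2 ≤ (ZZ.card : ℝ) * (4 * Real.exp (-(4 * ε * n)) * ∑ j ∈ J, ‖a j‖ ^ 2) := by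
    intro Y hYY
    have hI : ∀ f : ℝ → ℝ, Continuous f → IntegrableOn f (closure Y ∩ Icc 0 1) := fun f hf => (hf.integrableOn_Icc (a := 0) (b := 1)).mono_set inter_subset_right
    calc ∫ v in closure Y ∩ Icc 0 1, ‖tp J a v‖ ^ 2
        ≤ ∫ v in closure Y ∩ Icc 0 1, (ZZ.card : ℝ) * ∑ Z' ∈ ZZ, ‖tp (J.filter fun j => Zf j = Z') a v‖ ^ 2 :=
          integral_mono (hI _ ((FUQ_tp_cont J a).norm.pow 2)) (hI _ hFc) hpt
      _ = (ZZ.card : ℝ) * ∑ Z' ∈ ZZ, ∫ v in closure Y ∩ Icc 0 1, ‖tp (J.filter fun j => Zf j = Z') a v‖ ^ 2 := by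
          rw [integral_const_mul, integral_finsetSum _ fun Z' _ => hI _ (hcont Z')]
      _ ≤ (ZZ.card : ℝ) * ∑ Z' ∈ ZZ, 4 * Real.exp (-(4 * ε * n)) * ∑ j ∈ J.filter (fun j => Zf j = Z'), ‖a j‖ ^ 2 :=
          mul_le_mul_of_nonneg_left (Finset.sum_le_sum fun Z' hZ' => hone Y hYY Z' hZ') (by positivity)
      _ = _ := by rw [← Finset.mul_sum, hsumn]
  have hA : 0 ≤ ∑ j ∈ J, ‖a j‖ ^ 2 := Finset.sum_nonneg fun j _ => by positivity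
  have hE : Real.exp (ε * n) * Real.exp (ε * n) * (4 * Real.exp (-(4 * ε * n))) = 4 * Real.exp (-(2 * ε * n)) := by
    have h1 : Real.exp (-(2 * ε * n)) = Real.exp (ε * n) * Real.exp (ε * n) * Real.exp (-(4 * ε * n)) := by
      rw [← Real.exp_add, ← Real.exp_add]
      congr 1; ring
    rw [h1]; ring
  calc ∫ v in U ∩ Icc 0 1, ‖tp J a v‖ ^ 2 ≤ ∑ Y ∈ YY, ∫ v in closure Y ∩ Icc 0 1, ‖tp J a v‖ ^ 2 := h0
    _ ≤ ∑ _Y ∈ YY, (ZZ.card : ℝ) * (4 * Real.exp (-(4 * ε * n)) * ∑ j ∈ J, ‖a j‖ ^ 2) := Finset.sum_le_sum hY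
    _ = (YY.card : ℝ) * ((ZZ.card : ℝ) * (4 * Real.exp (-(4 * ε * n)) * ∑ j ∈ J, ‖a j‖ ^ 2)) := by rw [Finset.sum_const, nsmul_eq_mul]
    _ = (YY.card : ℝ) * (ZZ.card : ℝ) * ((4 * Real.exp (-(4 * ε * n))) * ∑ j ∈ J, ‖a j‖ ^ 2) := by ring
    _ ≤ (Real.exp (ε * n) * Real.exp (ε * n)) * ((4 * Real.exp (-(4 * ε * n))) * ∑ j ∈ J, ‖a j‖ ^ 2) :=
        mul_le_mul_of_nonneg_right (mul_le_mul hYc hZc (by positivity) (by positivity)) (by positivity)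
    _ = (4 * Real.exp (-(2 * ε * n))) * ∑ j ∈ J, ‖a j‖ ^ 2 := by rw [← hE]; ring
    _ ≤ Q * ∑ j ∈ J, ‖a j‖ ^ 2 := mul_le_mul_of_nonneg_right hn1' hA

end

end Pool.Agent.FT
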